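import Pool.Agent.Y798.FC.Stm3
import Pool.Agent.Y798.FC.Isol2
import Pool.Agent.Y495.FC.Div

/-! Job FC-FIX: the core argument for a fixed law. -/

set_option autoImplicit false

namespace Pool.Agent.Y188.FC

open MeasureTheory UnitAddTorus Pool.Agent.Y139.ID Filter Topology ComplexConjugate
  Pool.Agent.Y798.FC

variable {J : Type} [Fintype J]

/-- the pointwise bound with a constant -/
theorem pointwiseD (Φ : Finset (J → ℤ)) (c : (J → ℤ) →₀ ℤ) {D : ℝ} (hD : 0 ≤ D)
    (h : ∀ ψ : UnitAddTorus J → ℝ, Continuous ψ → (∀ x, 0 ≤ ψ x) →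
      ‖∫ x, (ψ x : ℂ) * trig c x ∂(vol J)‖ ≤ D * ∫ x, ψ x * dens Φ x ∂(vol J))
    (x : UnitAddTorus J) :
    ‖trig c x‖ ≤ D * dens Φ x := by
  have hct := continuous_trig c
  have hcd : Continuous fun x => D * dens Φ x := (continuous_dens Φ).const_mul D
  have key : ∀ u : ℂ, ‖u‖ = 1 → ∀ x, (u * trig c x).re ≤ D * dens Φ x := by
    intro u hu
    set F : UnitAddTorus J → ℝ := fun x => D * dens Φ x - (u * trig c x).re with hF
    have hFc : Continuous F := hcd.sub (Complex.continuous_re.comp (continuous_const.mul hct))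
    set ψ : UnitAddTorus J → ℝ := fun x => max (-F x) 0 with hψ
    have hψc : Continuous ψ := (hFc.neg).max continuous_const
    have hψ0 : ∀ x, 0 ≤ ψ x := fun x => le_max_right _ _
    have h1 : ‖∫ x, (ψ x : ℂ) * trig c x ∂(vol J)‖ ≤ ∫ x, ψ x * (D * dens Φ x) ∂(vol J) := by
      refine (h ψ hψc hψ0).trans (le_of_eq ?_)
      rw [← integral_const_mul]
      refine integral_congr_ae (Eventually.of_forall fun x => ?_)
      change D * (ψ x * dens Φ x) = ψ x * (D * dens Φ x)
      ring
    have h2 : ∀ x, F x * ψ x = -(ψ x ^ 2) := by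
      intro x
      simp only [hψ]
      rcases le_total (-F x) 0 with h3 | h3
      · rw [max_eq_right h3]; simp
      · rw [max_eq_left h3]; ring
    have h4 : ∫ x, F x * ψ x ∂(vol J) =
        ∫ x, ψ x * (D * dens Φ x) ∂(vol J) - (u * ∫ x, (ψ x : ℂ) * trig c x ∂(vol J)).re := by
      have e1 : (u * ∫ x, (ψ x : ℂ) * trig c x ∂(vol J)).re =
          ∫ x, ψ x * (u * trig c x).re ∂(vol J) := by
        rw [← integral_const_mul]
        have e2 := integral_re (𝕜 := ℂ) (μ := vol J) (f := fun x => u * ((ψ x : ℂ) * trig c x))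
          (integrable_cont _ (by fun_prop))
        have e3 : RCLike.re (∫ x, u * ((ψ x : ℂ) * trig c x) ∂(vol J)) =
          (∫ x, u * ((ψ x : ℂ) * trig c x) ∂(vol J)).re := rfl
        rw [← e3, ← e2]
        refine integral_congr_ae (Eventually.of_forall fun x => ?_)
        change (u * ((ψ x : ℂ) * trig c x)).re = ψ x * (u * trig c x).re
        have e4 : u * ((ψ x : ℂ) * trig c x) = (ψ x : ℂ) * (u * trig c x) := by ring
        rw [e4, Complex.re_ofReal_mul]
      have i1 : Integrable (fun x => ψ x * (D * dens Φ x)) (vol J) :=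
        integrable_cont_real _ (hψc.mul hcd)
      have i2 : Integrable (fun x => ψ x * (u * trig c x).re) (vol J) :=
        integrable_cont_real _ (hψc.mul (Complex.continuous_re.comp (continuous_const.mul hct)))
      rw [e1, ← integral_sub i1 i2]
      refine integral_congr_ae (Eventually.of_forall fun x => ?_)
      simp only [hF]
      ring
    have h5 : (u * ∫ x, (ψ x : ℂ) * trig c x ∂(vol J)).re ≤
        ∫ x, ψ x * (D * dens Φ x) ∂(vol J) := by
      refine (Complex.re_le_norm _).trans ?_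
      rw [norm_mul, hu, one_mul]
      exact h1
    simp only [h2] at h4
    rw [integral_neg] at h4
    have h6 : ∫ x, ψ x ^ 2 ∂(vol J) = 0 :=
      le_antisymm (by linarith) (integral_nonneg fun x => by positivity)
    have h7 := (integral_eq_zero_iff_of_nonneg (f := fun x => ψ x ^ 2) (fun x => sq_nonneg (ψ x))
      (integrable_cont_real _ (hψc.pow 2))).1 h6
    have h8 : (fun x => ψ x ^ 2) = fun _ => (0 : ℝ) :=
      Continuous.ae_eq_iff_eq (vol J) (hψc.pow 2) continuous_const |>.1 h7
    intro x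
    have h9 := congrFun h8 x
    have h10 : ψ x = 0 := by
      have : ψ x ^ 2 = 0 := h9
      exact pow_eq_zero_iff two_ne_zero |>.1 this
    have h11 : -F x ≤ 0 := by
      rw [← h10]
      exact le_max_left _ _
    simp only [hF] at h11
    linarith
  by_cases hz : trig c x = 0
  · rw [hz, norm_zero]
    exact mul_nonneg hD (dens_nonneg _ _)
  · have hn : ‖trig c x‖ ≠ 0 := norm_ne_zero_iff.2 hz
    have h1 := key (conj (trig c x) / ‖trig c x‖) (by
      rw [norm_div, Complex.norm_conj, Complex.norm_real, norm_norm, div_self hn]) x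
    have h2 : conj (trig c x) / (‖trig c x‖ : ℂ) * trig c x = (‖trig c x‖ : ℂ) := by
      rw [div_mul_eq_mul_div, ← Complex.normSq_eq_conj_mul_self, Complex.normSq_eq_norm_sq]
      push_cast
      field_simp
    rw [h2, Complex.ofReal_re] at h1
    exact h1

theorem t : StmFix := by
  intro J _ Φ h0 m D hm0 hD0 L hI hII hint
  choose ξ hξ using hint
  -- boundedness of L
  set M : ℝ := ∫ x, dens Φ x ∂(vol J) with hM
  have hM0 : 0 ≤ M := integral_nonneg fun x => dens_nonneg _ _
  have hLle : ∀ f : C(UnitAddTorus J, ℂ), ‖L f‖ ≤ (m * M).sqrt * ‖f‖ := by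
    intro f
    have h1 : ∫ x, ‖f x‖ ^ 2 * dens Φ x ∂(vol J) ≤ ‖f‖ ^ 2 * M := by
      rw [hM, ← integral_const_mul]
      refine integral_mono (integrable_cont_real _ ?_) (integrable_cont_real _ ?_) fun x => ?_
      · have := continuous_dens Φ
        fun_prop
      · have := continuous_dens Φ
        fun_prop
      · exact mul_le_mul_of_nonneg_right
          (pow_le_pow_left₀ (norm_nonneg _) (f.norm_coe_le_norm x) 2) (dens_nonneg _ _)
    have h2 : ‖L f‖ ^ 2 ≤ (m * M) * ‖f‖ ^ 2 := by
      refine (hI f).trans ?_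
      calc m * ∫ x, ‖f x‖ ^ 2 * dens Φ x ∂(vol J) ≤ m * (‖f‖ ^ 2 * M) :=
            mul_le_mul_of_nonneg_left h1 hm0
        _ = _ := by ring
    have h3 := Real.abs_le_sqrt h2
    rw [abs_of_nonneg (norm_nonneg _), Real.sqrt_mul (mul_nonneg hm0 hM0),
      Real.sqrt_sq (norm_nonneg _)] at h3
    exact h3
  -- finite support
  have hfin : (Function.support ξ).Finite := by
    refine finite_of_bound (A := m * 4 ^ Φ.card) fun S => ?_
    classical
    set b : (J → ℤ) →₀ ℤ := Finsupp.onFinset S (fun μ => if μ ∈ S then ξ μ else 0)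
      (fun μ hμ => by
        by_contra h
        exact hμ (if_neg h)) with hb
    set s := ∑ μ ∈ S, (ξ μ : ℝ) ^ 2 with hs
    have hs0 : 0 ≤ s := Finset.sum_nonneg fun μ _ => sq_nonneg _
    set f : C(UnitAddTorus J, ℂ) := ⟨trig b, continuous_trig b⟩ with hf
    have hf' : f = ∑ μ ∈ S, (ξ μ : ℂ) • mFourier μ := by
      ext x
      rw [hf]
      simp only [ContinuousMap.coe_mk, ContinuousMap.coe_sum, Finset.sum_apply,
        ContinuousMap.coe_smul, Pi.smul_apply, smul_eq_mul]
      unfold trig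
      rw [hb, Finsupp.onFinset_sum _ (fun a => by simp)]
      exact Finset.sum_congr rfl fun μ hμ => by rw [if_pos hμ]
    have h1 : L f = (s : ℂ) := by
      rw [hf', map_sum, hs]
      push_cast
      refine Finset.sum_congr rfl fun μ _ => ?_
      rw [map_smul, hξ μ, smul_eq_mul]
      ring
    have h4 : ∫ x, ‖f x‖ ^ 2 ∂(vol J) = s := by
      have h5 := int_sq_trig b
      rw [show (∫ x, ‖f x‖ ^ 2 ∂(vol J)) = ∫ x, ‖trig b x‖ ^ 2 ∂(vol J) from rfl, h5]
      have h6 : ∑ μ ∈ b.support, (b μ : ℝ) ^ 2 = b.sum fun _ a => (a : ℝ) ^ 2 := rfl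
      rw [h6, hb, Finsupp.onFinset_sum _ (fun a => by simp)]
      exact Finset.sum_congr rfl fun μ hμ => by rw [if_pos hμ]
    have h7 : ∫ x, ‖f x‖ ^ 2 * dens Φ x ∂(vol J) ≤ 4 ^ Φ.card * s := by
      rw [← h4, ← integral_const_mul]
      refine integral_mono (integrable_cont_real _ ?_) (integrable_cont_real _ ?_) fun x => ?_
      · have := continuous_dens Φ
        fun_prop
      · fun_prop
      · have := dens_le Φ x
        have h8 : (0 : ℝ) ≤ ‖f x‖ ^ 2 := by positivity
        calc ‖f x‖ ^ 2 * dens Φ x ≤ ‖f x‖ ^ 2 * 4 ^ Φ.card := mul_le_mul_of_nonneg_left this h8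
          _ = _ := by ring
    have h9 := hI f
    rw [h1, Complex.norm_real, Real.norm_eq_abs, sq_abs] at h9
    have h10 : s ^ 2 ≤ (m * 4 ^ Φ.card) * s := by
      refine h9.trans ?_
      rw [mul_assoc]
      exact mul_le_mul_of_nonneg_left h7 hm0
    by_contra hcon
    push Not at hcon
    have h11 : 0 < s := lt_of_le_of_lt (by positivity) hcon
    nlinarith
  -- the trigonometric polynomial
  have hfin' : (Function.support fun μ => ξ (-μ)).Finite := by
    have h1 : (Function.support fun μ => ξ (-μ)) = Neg.neg ⁻¹' (Function.support ξ) := rfl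
    rw [h1]
    exact hfin.preimage neg_injective.injOn
  set c : (J → ℤ) →₀ ℤ := Finsupp.ofSupportFinite (fun μ => ξ (-μ)) hfin' with hc
  have hcval : ∀ μ, c μ = ξ (-μ) := fun μ => rfl
  have hLc : L = intL (vol J) ⟨trig c, continuous_trig c⟩ := by
    refine eq_of_fourier _ _ _ _ hLle (intL_bound _ _) fun n => ?_
    rw [intL_apply, hξ n]
    have h2 := int_trig c n
    rw [hcval, neg_neg] at h2
    exact h2.symm
  have hLc' : ∀ f : C(UnitAddTorus J, ℂ), L f = ∫ x, f x * trig c x ∂(vol J) := fun f =>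
    congrArg (fun T => T f) hLc
  -- the pointwise bound
  have hpt : ∀ x, ‖trig c x‖ ≤ D * dens Φ x := by
    refine pointwiseD Φ c hD0 fun ψ hψ hψ0 => ?_
    have h1 := hII ψ hψ hψ0
    rw [hLc'] at h1
    exact h1
  -- division
  obtain ⟨d, hd⟩ := Pool.Agent.Y495.FC.Div.t J (Φ.toList ++ Φ.toList.map fun α => -α) (by
    intro α hα
    rw [List.mem_append, List.mem_map] at hα
    rcases hα with hα | ⟨β, hβ, rfl⟩
    · exact h0 α (Finset.mem_toList.1 hα)
    · exact neg_ne_zero.2 (h0 β (Finset.mem_toList.1 hβ))) D c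
    (Eventually.of_forall fun x => by rw [prod_roots]; exact hpt x)
  simp only [prod_roots'] at hd
  refine ⟨d, fun f => ?_⟩
  rw [hLc']
  refine integral_congr_ae (Eventually.of_forall fun x => ?_)
  change f x * trig c x = f x * (trig d x * (dens Φ x : ℂ))
  rw [hd x]

end Pool.Agent.Y188.FC
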